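import Pool.Agent.Run7.h794.WN.All
import Pool.Agent.Run7.h414.DP.Kc

/-!
# Primes in all intervals longer than a power of the logarithm, on almost all translates of arbitrary sets by random integers
# with determinantal digits

The digits of the random integer `v` are given by a determinantal random set `S` of positions (a determinantal point process
with an arbitrary Hermitian kernel): the digit number `i` is `y i` if `i ∈ S` and `x i ≠ y i` otherwise. Examples (their
existence is not used and not formalised): the edges of a uniform spanning tree of a graph with `k` edges; stationary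
determinantal processes with any symbol which is not almost everywhere `0` or almost everywhere `1` (for example the discrete
sine process with any density); independent digits; and all the events for such processes whose probability is at least
`1 / k ^ t`, for example a prescribed number of elements of `S`.

Definitions used (in `Pool.Agent.Run7.h414.DP.Law` and `Pool.Agent.Run7.h414.DP.Fam`): `DetLaw`, `GoodPos`, `DetDigits`.

Method: the characteristic function is `det (1 + D A)`; the inequality `|det N|² ≤ exp (tr N* N - k)` for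
`N = 1 + B D B*`, `A = B* B`, bounds it by `exp (- E)` with an energy `E` which is at least a constant times the number of
the good positions near the places where the frequency is far from the rational numbers with small denominators. Hence the
sum of `G(n) (Λ - λ_z)(n + v)` over `n ≤ N` is small for almost all `v`, for ARBITRARY coefficients `G`
(`Pool.Agent.N625.DY.cls_one`, starting files). The passage to all the lengths, several sets and all the neighbours is
`Pool.Agent.Run7.h794.WN.all_scales` (helper794, for general classes of laws), with the starting files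
`Pool.Agent.W301.SS`, `Pool.Agent.TH646.TT` (Selberg's upper bound function over short intervals) and
`Pool.Agent.H373R2.T7` (fundamental lemma of the sieve).
-/

set_option autoImplicit false

open Finset
open Pool.Agent.Run7.h414.DP (DC DetDigits fam_dc dc_one digits_le dom_log DC_nonneg)

namespace Pool.Agent.Results.MP_293bbf_nt.DeterminantalTranslates

/-- The number of the primes in `(n, n + y]`. -/
def primesIn (n y : ℕ) : ℕ := ((Ioc n (n + y)).filter Nat.Prime).card

open Classical in
/-- For all integers `y` with `log ^ K N ≤ y ≤ N` the average of `primesIn (a + m) y` over the `a ∈ A` differs from `y / log N` by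
at most `ε y / log N`, and at least `(1 / 4 - ε) |A|` elements `a` of `A` have at least `ε y / log N` primes in
`(a + m, a + m + y]`. -/
def Good (ε : ℝ) (K N : ℕ) (A : Finset ℕ) (m : ℕ) : Prop :=
  ∀ y : ℕ, Real.log N ^ K ≤ y → y ≤ N →
    |(∑ a ∈ A, (primesIn (a + m) y : ℝ)) * Real.log N - A.card * y| ≤ ε * (A.card * y) ∧
    (1 / 4 - ε) * A.card ≤ ((A.filter fun a => ε * y ≤ (primesIn (a + m) y : ℝ) * Real.log N).card : ℝ)

open Classical in
/-- Let `b ≥ 2`, `L`, `η > 0`, `t`, `κ ≥ 1`, `B`, `C`, `T`, `W`, `U` and `0 < ε ≤ 1 / 4` be fixed. There is a number `K` such that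
the following holds for all large integers `N`. Let `v < b ^ k` be the random integer with `k` determinantal digits in base `b`
(`DetDigits b L η t k p`), `N / B ≤ b ^ k ≤ B N`, let `0 ≤ c ≤ B N`, and let `A 1, ..., A J`, `J ≤ log ^ T N`, be ARBITRARY sets
of at least `N / log ^ C N` integers in `[1, N]`. Up to a probability of at most `1 / log ^ U N`, the integer `v` has the
following property: for ALL the integers `1 ≤ m ≤ N` with `c + κ v ≤ m ≤ c + κ v + log ^ W N`, for all `l` and for ALL integers
`y` with `log ^ K N ≤ y ≤ N`: the average over `a ∈ A l` of the number of the primes in `(a + m, a + m + y]` differs from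
`y / log N` by at most `ε y / log N`, and at least `(1 / 4 - ε) |A l|` elements `a` of `A l` have at least `ε y / log N` primes
in `(a + m, a + m + y]`. -/
theorem result (b L : ℕ) (hb : 2 ≤ b) (η : ℝ) (hη : 0 < η) (κ : ℕ) (hκ : 1 ≤ κ) (t B C T W U : ℕ) (ε : ℝ) (hε : 0 < ε)
    (hε1 : ε ≤ 1 / 4) : ∃ K N₀ : ℕ, ∀ N : ℕ, N₀ ≤ N → ∀ k : ℕ, b ^ k ≤ B * N → N ≤ B * b ^ k →
      ∀ p : ℕ → ℝ, DetDigits b L η t k p → ∀ c : ℕ, c ≤ B * N →
      ∀ (J : ℕ) (A : Fin J → Finset ℕ), (J : ℝ) ≤ Real.log N ^ T → (∀ l, A l ⊆ Icc 1 N) →
      (∀ l, N / Real.log N ^ C ≤ ((A l).card : ℝ)) →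
      ∑ v ∈ range (b ^ k), (if ∀ m : ℕ, 1 ≤ m → m ≤ N → c + κ * v ≤ m →
        (m : ℝ) ≤ ((c + κ * v : ℕ) : ℝ) + Real.log N ^ W → ∀ l, Good ε K N (A l) m then 0 else p v) ≤
        1 / Real.log N ^ U := by
  obtain ⟨K, h⟩ := Pool.Agent.Run7.h794.WN.all_scales (L := Pool.Agent.N625.DY.Kc b (4 * B) (DC b L η)) κ B C T W
    (U + 2 * t) ε hε hε1 (fun V => dc_one b L η hb hη κ hκ (4 * B) (B + 1) V)
  obtain ⟨N₁, h1⟩ := Filter.eventually_atTop.1 h
  refine ⟨K, N₁ + B + 64, fun N hN k hk1 hk2 p hp c hc J A hJ hA1 hA2 => ?_⟩
  have hN64 : (64 : ℝ) ≤ N := by exact_mod_cast (by omega : 64 ≤ N)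
  have hL1 : 1 ≤ Real.log N := by
    rw [Real.le_log_iff_exp_le (by linarith)]
    linarith [Real.exp_one_lt_d9]
  have hL0 : 0 < Real.log N := by linarith
  obtain ⟨μ, hμ, hpμ⟩ := fam_dc hp
  have hμ0 : ∀ v, 0 ≤ μ v := fun v => DC_nonneg hμ v
  have h2 := h1 N (by omega) (range (b ^ k)) μ ⟨k, by
      calc b ^ k ≤ B * N := hk1
        _ ≤ 4 * B * (4 * N) := by nlinarith [Nat.zero_le (B * N)], by
      calc 4 * N ≤ 4 * (B * b ^ k) := Nat.mul_le_mul_left _ hk2
        _ = _ := by ring, hμ, rfl⟩ (fun v _ => hμ0 v) c hc J A hJ hA1 (fun l => by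
      have h3 := hA2 l
      rwa [div_le_iff₀ (by positivity)] at h3)
  refine dom_log (t := t) (U := U) (k := k) (N := N) ?_ (digits_le b B N k hb (by omega) hk1) (by omega) h2 ?_
  · apply sum_nonneg
    intro v _
    split_ifs
    · exact le_rfl
    · exact hμ0 v
  rw [mul_sum]
  apply sum_le_sum
  intro v _
  by_cases hg : ∀ m : ℕ, 1 ≤ m → m ≤ N → c + κ * v ≤ m →
        (m : ℝ) ≤ ((c + κ * v : ℕ) : ℝ) + Real.log N ^ W → ∀ l, Good ε K N (A l) m
  · rw [if_pos hg]
    apply mul_nonneg (by positivity)
    split_ifs
    · exact le_rfl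
    · exact hμ0 v
  · rw [if_neg hg, if_pos]
    · exact (hpμ v).2
    · intro h3
      apply hg
      intro m hm1 hm2 hm3 hm4 l
      obtain ⟨u, hu⟩ : ∃ u, m = c + κ * v + u := ⟨m - (c + κ * v), by omega⟩
      have h4 := h3 u (by
        rw [hu] at hm4
        push_cast at hm4
        linarith) (by omega) (by omega) l
      rw [← hu] at h4
      intro z hz1 hz2
      obtain ⟨h5, h6⟩ := h4 z hz1 hz2
      refine ⟨h5, le_trans h6 (le_of_eq ?_)⟩
      unfold Pool.Agent.W301.SS.GG
      rfl

end Pool.Agent.Results.MP_293bbf_nt.DeterminantalTranslates
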