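import Pool.Agent.Run7.h794.MK.All
import Pool.Agent.Run7.h794.MK.Fin
import Pool.Agent.N384.MQ.Ex
import Pool.Agent.N384.MQ.Quot

/-!
# Primes in all intervals longer than a power of the logarithm, on almost all SHORT translates of arbitrary sets

Let `q ≥ N ^ (1 / 3) log ^ C N` and let `y_i` be an arbitrary family of integers in `[0, q)` with small Fourier coefficients modulo `q`
(it may have only a power of `log N` members). For almost all members `b` of the family, and for all their neighbours, the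
translates `A + b` of up to `log ^ T N` ARBITRARY sets of at least `N / log ^ C N` integers have the expected number of primes
to the right of their points, for ALL lengths of the intervals from a power of `log N` to `N`.

From Mathlib: `ZMod.stdAddChar`: the additive character `j ↦ exp (2 π i j / q)` of the integers modulo `q`; `ZMod.val`: the
least residue.

New ingredients (project MK, all proved in the repository): the von Mangoldt function minus its sieve model is small in
almost all intervals of length `x ^ (1 / 3) log ^ C x` with ALL additive characters (Heath-Brown's identity, bilinear sums and the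
divisor function in mean square over short intervals, zeros of `L`-functions), and the resulting law for the correlations of
the primes with arbitrary bounded sequences at the shifts by short flat distributions. From the starting files: Selberg's
upper bound function over short intervals (`Pool.Agent.W301.SS`, `Pool.Agent.TH646.TT`), the fundamental lemma of the sieve
(`Pool.Agent.H373R2.T7.sys_fund`), examples of flat families (`Pool.Agent.N384.MQ`).
-/

set_option autoImplicit false

namespace Pool.Agent.Results.MP_293bbf_nt.ShortFamilyTranslates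

open Finset

/-- The Fourier coefficients of the residues `y i`, `i ∈ s`, modulo `q` at the nonzero frequencies are at most
`η` times the number of the residues: `|∑ i ∈ s, e(h y_i / q)| ≤ η |s|` for all `h ≠ 0` modulo `q`. -/
def Flat {ι : Type} (q : ℕ) [NeZero q] (η : ℝ) (s : Finset ι) (y : ι → ZMod q) : Prop :=
  ∀ h : ZMod q, h ≠ 0 → ‖∑ i ∈ s, (ZMod.stdAddChar (h * y i) : ℂ)‖ ≤ η * s.card

/-- The number of the primes in `(n, n + y]`. -/
def primesIn (n y : ℕ) : ℕ := ((Ioc n (n + y)).filter Nat.Prime).card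

open Classical in
/-- For all integers `y` with `log ^ K N ≤ y ≤ N` the average of `primesIn (a + b) y` over the `a ∈ A` differs from `y / log N` by
at most `ε y / log N`, and at least `(1 / 4 - ε) |A|` elements `a` of `A` have at least `ε y / log N` primes in
`(a + b, a + b + y]`. -/
def Good (ε : ℝ) (K N : ℕ) (A : Finset ℕ) (b : ℕ) : Prop :=
  ∀ y : ℕ, Real.log N ^ K ≤ y → y ≤ N →
    |(∑ a ∈ A, (primesIn (a + b) y : ℝ)) * Real.log N - A.card * y| ≤ ε * (A.card * y) ∧
    (1 / 4 - ε) * A.card ≤ ((A.filter fun a => ε * y ≤ (primesIn (a + b) y : ℝ) * Real.log N).card : ℝ)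

open Classical in
/-- **(1)** Let `κ ≥ 1`, `B`, `C`, `T`, `W`, `U` and `0 < ε ≤ 1 / 4` be fixed. There are numbers `V`, `D` and `K` such that the
following holds for all large integers `N`. Let `N ^ (1 / 3) log ^ D N ≤ q ≤ B N`, let `y i`, `i ∈ s`, be a finite family of residues
modulo `q` whose Fourier coefficients at the nonzero frequencies are at most `|s| / log ^ V q`, let `0 ≤ c ≤ B N`, and let
`A 1, ..., A J`, `J ≤ log ^ T N`, be ARBITRARY sets of at least `N / log ^ C N` integers in `[1, N]`. Then all the `i ∈ s`, with at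
most `|s| / log ^ U N` exceptions, have the following property: for ALL the integers `1 ≤ b ≤ N` with
`c + κ y_i ≤ b ≤ c + κ y_i + log ^ W N` (with the least residue `0 ≤ y_i < q`), for all `l` and for ALL integers `y` with
`log ^ K N ≤ y ≤ N`: the average over `a ∈ A l` of the number of the primes in `(a + b, a + b + y]` differs from `y / log N` by at
most `ε y / log N`, and at least `(1 / 4 - ε) |A l|` elements `a` of `A l` have at least `ε y / log N` primes in
`(a + b, a + b + y]`.

**(2)**, **(3)** Examples. The condition of (1) holds modulo all large primes `p` for: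
* the quotients `j / r` of the integers `0 ≤ j < S` by the primes `r ≤ R`, if `log ^ (V + 4) p ≤ R < p` and `R ^ 2 ≤ S`; thus
  there are such explicit sets with only `log ^ (3 V + 12) p` members;
* the cosets of all subgroups of the multiplicative group of an order of at least `p ^ (3/8) log ^ (3 V + 1) p`;
* the residues `a b + g(a) + k(b)`, `a ∈ A`, `b ∈ B`, for arbitrary sets with `|A| |B| ≥ p log ^ (2 V) p` and arbitrary
  functions `g` and `k`;
* the values `f(n)`, `0 ≤ n < x`, of all integer polynomials of degree `d` whose leading coefficient is not divisible by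
  `p`, if `x ^ d ≥ p log ^ C p`, where `C` depends on `d` and `V`. -/
theorem result :
    (∀ κ : ℕ, 1 ≤ κ → ∀ (B C T W U : ℕ) (ε : ℝ), 0 < ε → ε ≤ 1 / 4 → ∃ V D K N₀ : ℕ, ∀ N : ℕ, N₀ ≤ N →
      ∀ q : ℕ, ∀ [NeZero q], (N : ℝ) ^ (1 / 3 : ℝ) * Real.log N ^ D ≤ q → q ≤ B * N →
      ∀ (ι : Type) (s : Finset ι) (y : ι → ZMod q), Flat q (1 / Real.log q ^ V) s y → ∀ c : ℕ, c ≤ B * N →
      ∀ (J : ℕ) (A : Fin J → Finset ℕ), (J : ℝ) ≤ Real.log N ^ T → (∀ l, A l ⊆ Icc 1 N) →
      (∀ l, N / Real.log N ^ C ≤ ((A l).card : ℝ)) →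
      ((s.filter fun i => ¬ ∀ b : ℕ, 1 ≤ b → b ≤ N → c + κ * (y i).val ≤ b →
        (b : ℝ) ≤ c + κ * ((y i).val : ℕ) + Real.log N ^ W → ∀ l, Good ε K N (A l) b).card : ℝ) ≤
        s.card / Real.log N ^ U) ∧
    (∀ V : ℕ, ∃ P₀ : ℕ, ∀ p : ℕ, P₀ ≤ p → ∀ [Fact p.Prime],
      (∀ R S : ℕ, Real.log p ^ (V + 4) ≤ R → R < p → R ^ 2 ≤ S →
        Flat p (1 / Real.log p ^ V) (((Icc 1 R).filter Nat.Prime) ×ˢ range S)
          (fun z => ((z.2 : ℕ) : ZMod p) * ((z.1 : ℕ) : ZMod p)⁻¹)) ∧
      (∀ (H : Subgroup (ZMod p)ˣ) (s : Finset (ZMod p)ˣ), (∀ u, u ∈ s ↔ u ∈ H) →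
        (p : ℝ) ^ (3 / 8 : ℝ) * Real.log p ^ (3 * V + 1) ≤ s.card → ∀ x : ZMod p, x ≠ 0 →
        Flat p (1 / Real.log p ^ V) s (fun u => x * (u : ZMod p))) ∧
      (∀ (A B : Finset (ZMod p)) (g k : ZMod p → ZMod p), (p : ℝ) * Real.log p ^ (2 * V) ≤ A.card * B.card →
        Flat p (1 / Real.log p ^ V) (A ×ˢ B) (fun z => z.1 * z.2 + g z.1 + k z.2))) ∧
    (∀ d V : ℕ, 1 ≤ d → ∃ C P₀ : ℕ, ∀ p : ℕ, P₀ ≤ p → ∀ [Fact p.Prime] (f : Polynomial ℤ), f.natDegree = d →
      ¬ (p : ℤ) ∣ f.leadingCoeff → ∀ x : ℕ, (p : ℝ) * Real.log p ^ C ≤ (x : ℝ) ^ d →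
      Flat p (1 / Real.log p ^ V) (range x) (fun n => ((f.eval (n : ℤ) : ℤ) : ZMod p))) := by
  refine ⟨fun κ hκ B C T W U ε hε hε1 => ?_, fun V => ?_, fun d V hd => ?_⟩
  · obtain ⟨V, D, K, N₀, h⟩ := Pool.Agent.Run7.h794.MK.short_windows Pool.Agent.Run7.h794.MK.flt_all κ hκ B C T W U ε hε hε1
    obtain ⟨N₁, hfl⟩ := Pool.Agent.Run7.h794.MK.flat_log V
    refine ⟨V + 1, D, K, N₀ + N₁ + 4, fun N hN q _ hq1 hq2 ι s y hf c hc J A hJ hA1 hA2 => ?_⟩
    have hlog : 0 < Real.log N := by
      have := Pool.Agent.N193.PS.log_pos4 N (by omega)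
      linarith
    have h1 := h N (by omega) q hq1 hq2 ι s y (hfl N (by omega) q D hq1 s y hf) c hc J A hJ hA1 (fun l => by
      have h2 := hA2 l
      rwa [div_le_iff₀ (by positivity)] at h2)
    refine le_trans ?_ h1
    have hsub : s.filter (fun i => ¬ ∀ b : ℕ, 1 ≤ b → b ≤ N → c + κ * (y i).val ≤ b →
        (b : ℝ) ≤ c + κ * ((y i).val : ℕ) + Real.log N ^ W → ∀ l, Good ε K N (A l) b) ⊆
        s.filter (fun i => ¬ ∀ t : ℕ, (t : ℝ) ≤ Real.log N ^ W → 1 ≤ c + κ * (y i).val + t →
          c + κ * (y i).val + t ≤ N → ∀ l, Pool.Agent.Run7.h794.WN.Good ε K N (A l) (c + κ * (y i).val + t)) := by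
      intro i hi
      rw [mem_filter] at hi ⊢
      refine ⟨hi.1, fun h3 => hi.2 fun b hb1 hb2 hb3 hb4 l => ?_⟩
      obtain ⟨t, ht⟩ : ∃ t, b = c + κ * (y i).val + t := ⟨b - (c + κ * (y i).val), by omega⟩
      have h4 := h3 t (by
        rw [ht] at hb4
        push_cast at hb4
        linarith) (by omega) (by omega) l
      rw [← ht] at h4
      intro z hz1 hz2
      obtain ⟨h5, h6⟩ := h4 z hz1 hz2
      refine ⟨h5, le_trans h6 (le_of_eq ?_)⟩
      unfold Pool.Agent.W301.SS.GG
      rfl
    exact_mod_cast card_le_card hsub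
  · obtain ⟨P₁, h1⟩ := Pool.Agent.N384.MQ.flat_quot V
    obtain ⟨P₂, h2⟩ := Pool.Agent.N384.MQ.flat_coset V
    obtain ⟨P₃, h3⟩ := Pool.Agent.N384.MQ.flat_prod V
    exact ⟨P₁ + P₂ + P₃, fun p hp _ => ⟨fun R S => h1 p (by omega) R S, fun H s => h2 p (by omega) H s,
      fun A B g k => h3 p (by omega) A B g k⟩⟩
  · exact Pool.Agent.N384.MQ.flat_poly d V hd

end Pool.Agent.Results.MP_293bbf_nt.ShortFamilyTranslates
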