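import Pool.Agent.Run7.h673.SP.WinF

/-!
# Primes in sparse windows formed by the values of functions of superpolynomial growth

For almost all `n ≤ N`, with at most `N / log ^ U N` exceptions, the right proportion of the integers
`n + h + κ ⌊exp (φ (log k))⌋`, `y < k ≤ x`, are primes, for instance `φ y = γ y ^ β` with `1 < β < 3 / 2`. These integers form a
set with `N ^ o(1)` elements in an interval of a length which may be as small as `N ^ (1/3 + o(1))`.

From Mathlib: `ContDiffAt ℝ ⊤`: infinitely differentiable at a point; `iteratedDeriv m f`: the derivative of order `m`;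
`⌊y⌋₊`: the integer part of `y`, and `0` for `y < 0`; `Int.natAbs κ`: the absolute value; `Nat.totient`: Euler's function;
`Int.toNat z`: the number `z`, and `0` for `z < 0`.

Method: the exponential sums over the integer parts of `exp (φ (log k))`, `y < k ≤ x`, are small at all frequencies with a
distance of at least `log ^ A / exp (φ (log y))` from the integers (Vinogradov's method of bilinear exponential sums with
the mean value theorem in the form of a starting file; files `Pool.Agent.Run7.h673.SP`). By project MK of this run (helper794,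
helper880, helper337 and others) the von Mangoldt function minus its mean in the classes prime to `κ` has small mean squares
over short arcs around the fractions `j / κ`; the passage from there to sparse windows is adapted from files of helper337.
-/

set_option autoImplicit false

namespace Pool.Agent.Results.MP_293bbf_nt.SuperpolynomialWindows

open Finset

/-- The conditions on `φ` for the growth of `f t = exp (φ (log t))`: for some `δ > 0`, `K` and `L₀` and all `y > L₀` the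
function `φ` is infinitely differentiable at `y`, `φ y > 0`, `(1 + δ) φ y ≤ y φ' y`, `φ y ≤ y ^ (3 / 2 - δ)`, and
`|φ⁽ᵐ⁾ y| ≤ m! φ y (K / y) ^ m` for all `m ≥ 1`. -/
def Rapid (φ : ℝ → ℝ) : Prop :=
  ∃ δ K L₀ : ℝ, 0 < δ ∧ ∀ y > L₀, ContDiffAt ℝ ((⊤ : ℕ∞) : WithTop ℕ∞) φ y ∧ 0 < φ y ∧
    (1 + δ) * φ y ≤ y * deriv φ y ∧ φ y ≤ y ^ (3 / 2 - δ) ∧
    ∀ m : ℕ, 1 ≤ m → |iteratedDeriv m φ y| ≤ m.factorial * φ y * (K / y) ^ m

/-- `(y, x]` is a range of length at least `x / log ^ a N` in which `f t = exp (φ (log t))` has values between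
`N ^ (1/3) log ^ C N` and `N / log ^ C N`: `y < x`, `x ≤ log ^ a N (x - y)`, `N ^ (1/3) log ^ C N ≤ f y` and
`f x log ^ C N ≤ N`. -/
def Range (φ : ℝ → ℝ) (a C N x y : ℕ) : Prop :=
  y < x ∧ (x : ℝ) ≤ Real.log N ^ a * ((x : ℝ) - y) ∧
    (N : ℝ) ^ (1 / 3 : ℝ) * Real.log N ^ C ≤ Real.exp (φ (Real.log y)) ∧ Real.exp (φ (Real.log x)) * Real.log N ^ C ≤ N

/-- `W φ x y κ m`: the number of the `k` with `y < k ≤ x` for which `m + κ ⌊exp (φ (log k))⌋` is a (positive) prime. -/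
noncomputable def W (φ : ℝ → ℝ) (x y : ℕ) (κ m : ℤ) : ℕ :=
  ((Ioc y x).filter fun k : ℕ => (m + κ * ⌊Real.exp (φ (Real.log k))⌋₊).toNat.Prime).card

/-- `κ / φ(κ)` times the expected number `(x - y) / log N` of primes -/
noncomputable def expected (N x y : ℕ) (κ : ℤ) : ℝ :=
  κ.natAbs / (Nat.totient κ.natAbs : ℝ) * (((x : ℝ) - y) / Real.log N)

lemma npr_eq (φ : ℝ → ℝ) (x y : ℕ) (κ h : ℤ) (n : ℕ) :
    Pool.Agent.Run7.h673.SP.npr φ x y κ h n = W φ x y κ ((n : ℤ) + h) := by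
  unfold Pool.Agent.Run7.h673.SP.npr W
  congr 1
  apply filter_congr
  intro k _
  have : (n : ℤ) + (h + κ * (Pool.Agent.Run7.h673.SP.val φ k : ℕ)) =
      (n : ℤ) + h + κ * ⌊Real.exp (φ (Real.log k))⌋₊ := by
    unfold Pool.Agent.Run7.h673.SP.val Pool.Agent.Run7.h673.SP.ff
    ring
  rw [this]

/-- **(1)** Let `φ` satisfy the conditions `Rapid` and let `T`, `U`, `a` and `0 < ε ≤ 1` be fixed. There is `C` such that for
all large `N`, all ranges `(y, x]` (`Range`: the values `exp (φ (log k))` are between `N ^ (1/3) log ^ C N` and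
`N / log ^ C N`, and `x - y ≥ x / log ^ a N`), all integers `κ ≠ 0` with `|κ| ≤ log ^ T N` and all integers
`|h| ≤ N log ^ T N`: for all `1 ≤ n ≤ N`, with at most `N / log ^ U N` exceptions, for which `n + h` is positive and prime to
`κ`, the number of the primes among the `n + h + κ ⌊exp (φ (log k))⌋`, `y < k ≤ x`, is `κ / φ(κ) (x - y) / log N` up to a
factor between `1 - ε` and `1 + ε`.

**(2)** For the same `N`, `(y, x]`, `κ`, `h` and EVERY set `B` of integers `1 ≤ n ≤ N` with `n + h` positive and prime to `κ`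
and with at least `N / log ^ T N` elements, the number of the pairs `(n, k)`, `n ∈ B`, for which
`n + h + κ ⌊exp (φ (log k))⌋` is a prime is `κ / φ(κ) |B| (x - y) / log N` up to such a factor.

**(3)** Let `φ` satisfy the conditions `Rapid`, `η > 0`, `C`. For all large `N` and all `X` with
`N ^ (1/3 + η) ≤ exp (φ (log X))` and `exp (φ (log X)) log ^ C N ≤ N` the interval `(⌊X / 2⌋, X]` is a range (`a = 1`).

**(4)** The functions `φ y = γ y ^ β` with `γ > 0` and `1 < β < 3 / 2` satisfy the conditions `Rapid`. -/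
theorem result :
    (∀ φ : ℝ → ℝ, Rapid φ → ∀ (T U a : ℕ) (ε : ℝ), 0 < ε → ε ≤ 1 → ∃ C N₀ : ℕ, ∀ N : ℕ, N₀ ≤ N →
      ∀ x y : ℕ, Range φ a C N x y → ∀ κ : ℤ, κ ≠ 0 → (κ.natAbs : ℝ) ≤ Real.log N ^ T →
      ∀ h : ℤ, |(h : ℝ)| ≤ N * Real.log N ^ T →
        (∃ E : Finset ℕ, (E.card : ℝ) ≤ N / Real.log N ^ U ∧
          ∀ n : ℕ, 1 ≤ n → n ≤ N → n ∉ E → 0 < (n : ℤ) + h → IsCoprime ((n : ℤ) + h) κ →
            |(W φ x y κ (n + h) : ℝ) - expected N x y κ| ≤ ε * expected N x y κ) ∧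
        ∀ B : Finset ℕ, (∀ n ∈ B, 1 ≤ n ∧ n ≤ N ∧ 0 < (n : ℤ) + h ∧ IsCoprime ((n : ℤ) + h) κ) →
          (N : ℝ) ≤ B.card * Real.log N ^ T →
          |∑ n ∈ B, (W φ x y κ (n + h) : ℝ) - B.card * expected N x y κ| ≤ ε * (B.card * expected N x y κ)) ∧
    (∀ φ : ℝ → ℝ, Rapid φ → ∀ η : ℝ, 0 < η → ∀ C : ℕ, ∃ N₀ : ℕ, ∀ N : ℕ, N₀ ≤ N → ∀ X : ℕ,
      (N : ℝ) ^ (1 / 3 + η) ≤ Real.exp (φ (Real.log X)) → Real.exp (φ (Real.log X)) * Real.log N ^ C ≤ N →
      Range φ 1 C N X (X / 2)) ∧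
    (∀ γ β : ℝ, 0 < γ → 1 < β → β < 3 / 2 → Rapid (fun y => γ * y ^ β)) := by
  refine ⟨fun φ hφ T U a ε hε hε1 => ?_, fun φ hφ η hη C => ?_,
    fun γ β h1 h2 h3 => Pool.Agent.Run7.h673.SP.rapid_pow γ β h1 h2 h3⟩
  · have hφ' : Pool.Agent.Run7.h673.SP.Rapid φ := hφ
    obtain ⟨δ, C', L₀, hf⟩ := hφ'.fast
    obtain ⟨C₁, W₁, N₁, h1⟩ := hf.win T U a ε hε hε1
    obtain ⟨C₂, W₂, N₂, h2⟩ := Pool.Agent.Run7.h673.SP.win_tuples 1 (fun _ => φ) (fun _ => hφ') T a ε hε hε1
    obtain ⟨N₃, h3⟩ := Filter.eventually_atTop.1 (Pool.Agent.N384.MQ.ev_log_ge 1)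
    refine ⟨C₁ + C₂ + W₁ + W₂, N₁ + N₂ + N₃, fun N hN x y hr κ hκ hκT h hh => ?_⟩
    have hL := h3 N (by omega)
    obtain ⟨r1, r2, r3, r4⟩ := hr
    have hr' : Pool.Agent.Run7.h673.SP.Rgw φ a (C₁ + C₂ + W₁ + W₂) (C₁ + C₂ + W₁ + W₂) N x y := by
      refine ⟨r1, ?_, r3, r4⟩
      rw [Nat.cast_sub r1.le]
      exact r2
    have hex : κ.natAbs / (Nat.totient κ.natAbs : ℝ) * (((x - y : ℕ) : ℝ) / Real.log N) = expected N x y κ := by
      unfold expected
      rw [Nat.cast_sub r1.le]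
    constructor
    · obtain ⟨E, hE1, hE2⟩ := h1 N (by omega) x y (hr'.mono hL (by omega) (by omega)) κ hκ hκT h hh
      refine ⟨E, hE1, fun n hn1 hnN hnE hpos hcop => ?_⟩
      have h4 := hE2 n hn1 hnN hnE hpos hcop
      rw [npr_eq, hex] at h4
      exact h4
    · intro B hB hBN
      have h4 := h2 N (by omega) (fun _ => x) (fun _ => y) (fun _ => hr'.mono hL (by omega) (by omega)) (fun _ => κ)
        (fun _ => ⟨hκ, hκT⟩) (fun _ => h) (fun _ => hh) B
        (fun n hn => ⟨(hB n hn).1, (hB n hn).2.1, fun _ => (hB n hn).2.2⟩) hBN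
      simp only [Finset.univ_unique, Finset.prod_const, Finset.card_singleton, pow_one, npr_eq, hex] at h4
      exact h4
  · have hφ' : Pool.Agent.Run7.h673.SP.Rapid φ := hφ
    obtain ⟨δ, C', L₀, hf⟩ := hφ'.fast
    obtain ⟨N₀, h0⟩ := hf.half η hη C 1
    obtain ⟨N₃, h3⟩ := Filter.eventually_atTop.1 (Pool.Agent.N384.MQ.ev_log_ge 1)
    refine ⟨N₀ + N₃, fun N hN X h1 h2 => ?_⟩
    have hL := h3 N (by omega)
    obtain ⟨e1, e2, e3, e4⟩ := h0 N (by omega) X h1 (by
      rw [Nat.cast_one, one_mul]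
      refine le_trans ?_ h2
      exact le_mul_of_one_le_right (Real.exp_pos _).le (one_le_pow₀ hL))
    refine ⟨e1, ?_, e3, h2⟩
    rw [Nat.cast_sub e1.le] at e2
    exact e2

end Pool.Agent.Results.MP_293bbf_nt.SuperpolynomialWindows
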