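import Pool.Agent.Run7.h794.WN.All
import Pool.Agent.N625.DY.G
import Pool.Agent.Run7.h672.CC.F

/-!
# Translates of arbitrary sets by random integers written by independent random words: all windows longer than a power of the
# logarithm, around all the neighbours of the random integer

For arbitrary sets `A ⊆ [1, N]` of at least `N / log ^ C N` elements and almost every integer `m` near the values `c + κ v` of a
random integer `v` written by independent random words (any language, finite or infinite), the primes in the windows
`(a + m, a + m + y]`, `a ∈ A`, have the expected number on average, for ALL `y ≥ log ^ K N` at once, and a positive proportion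
of the windows has the right order of primes.

The definitions `len`, `Words`, `cat`, `noRest`, `cutWord`, `WordLaw` are in `Pool.Agent.Run7.h672.CC.Defs`.

Method: a strong renewal theorem for the places at which a word ends; between two such places, at a positive proportion of
the places, two words which do not commute can be exchanged; hence the characteristic function is exponentially small in the
number of the places at which the frequency is not close to a rational number with a small denominator
(`Pool.Agent.Run7.h672.CC`). With this input the one-shift estimate of the starting library (`Pool.Agent.N625.DY`) and the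
theorem on all scales of `Pool.Agent.Run7.h794.WN` (helper794) apply, as in `DeterminantalTranslates` (helper414).
-/

set_option autoImplicit false

open Finset
open Pool.Agent.N625.DY (Kc cls_one)
open Pool.Agent.Run7.h672.CC

namespace Pool.Agent.Results.MP_293bbf_nt.WordTranslates

/-- The number of the primes in `(n, n + y]`. -/
def primesIn (n y : ℕ) : ℕ := ((Ioc n (n + y)).filter Nat.Prime).card

open Classical in
/-- For all integers `y` with `log ^ K N ≤ y ≤ N` the average of `primesIn (a + m) y` over the `a ∈ A` differs from `y / log N` by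
at most `ε y / log N`, and at least `(1 / 4 - ε) |A|` elements `a` of `A` have at least `ε y / log N` primes in
`(a + m, a + m + y]`. -/
def Good (ε : ℝ) (K N : ℕ) (A : Finset ℕ) (m : ℕ) : Prop :=
  ∀ y : ℕ, Real.log N ^ K ≤ y → y ≤ N →
    |(∑ a ∈ A, (primesIn (a + m) y : ℝ)) * Real.log N - A.card * y| ≤ ε * (A.card * y) ∧
    (1 / 4 - ε) * A.card ≤ ((A.filter fun a => ε * y ≤ (primesIn (a + m) y : ℝ) * Real.log N).card : ℝ)

open Classical in
/-- Let `q` be the law of a random word in base `b` (`Words b q`: any language, finite or infinite, lengths with an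
exponential moment and without a common divisor, and two words which do not commute), and let `κ ≥ 1`, `B`, `C`, `T`, `W`, `U`
and `0 < ε ≤ 1 / 4` be fixed. There is a number `K` such that the following holds for all large integers `N`. Let `v < b ^ k` be
a random integer whose `k` digits are written by independent random words with the law `q`, conditioned on the total length `k`,
or cut after `k` digits (`WordLaw b q k p`), `b ^ k ≤ B N`, `N ≤ B b ^ k`, let `0 ≤ c ≤ B N`, and let `A 1, ..., A J`,
`J ≤ log ^ T N`, be ARBITRARY sets of at least `N / log ^ C N` integers in `[1, N]`. Up to a probability of at most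
`1 / log ^ U N`, the integer `v` has the following property: for ALL the integers `1 ≤ m ≤ N` with
`c + κ v ≤ m ≤ c + κ v + log ^ W N`, for all `l` and for ALL integers `y` with `log ^ K N ≤ y ≤ N`: the average over `a ∈ A l` of
the number of the primes in `(a + m, a + m + y]` differs from `y / log N` by at most `ε y / log N`, and at least
`(1 / 4 - ε) |A l|` elements `a` of `A l` have at least `ε y / log N` primes in `(a + m, a + m + y]`. -/
theorem result (b : ℕ) (q : ℕ → ℕ → ℝ) (hq : Words b q) (κ : ℕ) (hκ : 1 ≤ κ) (B C T W U : ℕ) (ε : ℝ) (hε : 0 < ε)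
    (hε1 : ε ≤ 1 / 4) : ∃ K N₀ : ℕ, ∀ N : ℕ, N₀ ≤ N → ∀ k : ℕ, b ^ k ≤ B * N → N ≤ B * b ^ k →
      ∀ p : ℕ → ℝ, WordLaw b q k p → ∀ c : ℕ, c ≤ B * N →
      ∀ (J : ℕ) (A : Fin J → Finset ℕ), (J : ℝ) ≤ Real.log N ^ T → (∀ l, A l ⊆ Icc 1 N) →
      (∀ l, N / Real.log N ^ C ≤ ((A l).card : ℝ)) →
      ∑ v ∈ range (b ^ k), (if ∀ m : ℕ, 1 ≤ m → m ≤ N → c + κ * v ≤ m →
        (m : ℝ) ≤ ((c + κ * v : ℕ) : ℝ) + Real.log N ^ W → ∀ l, Good ε K N (A l) m then 0 else p v) ≤
        1 / Real.log N ^ U := by
  obtain ⟨K, h⟩ := Pool.Agent.Run7.h794.WN.all_scales (L := Kc b (4 * B) (WordLaw b q)) κ B C T W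
    U ε hε hε1 (fun V => cls_one κ (word_clsV hq (κ : ℤ) (by exact_mod_cast (by omega : κ ≠ 0))).toCls (4 * B) (B + 1) V)
  obtain ⟨N₁, h1⟩ := Filter.eventually_atTop.1 h
  refine ⟨K, N₁ + B + 64, fun N hN k hk1 hk2 p hp c hc J A hJ hA1 hA2 => ?_⟩
  have hN64 : (64 : ℝ) ≤ N := by exact_mod_cast (by omega : 64 ≤ N)
  have hL1 : 1 ≤ Real.log N := by
    rw [Real.le_log_iff_exp_le (by linarith)]
    linarith [Real.exp_one_lt_d9]
  have hL0 : 0 < Real.log N := by linarith
  have hp0 : ∀ v, 0 ≤ p v := law_nonneg hq hp
  have h2 := h1 N (by omega) (range (b ^ k)) p ⟨k, by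
      calc b ^ k ≤ B * N := hk1
        _ ≤ 4 * B * (4 * N) := by nlinarith [Nat.zero_le (B * N)], by
      calc 4 * N ≤ 4 * (B * b ^ k) := Nat.mul_le_mul_left _ hk2
        _ = _ := by ring, hp, rfl⟩ (fun v _ => hp0 v) c hc J A hJ hA1 (fun l => by
      have h3 := hA2 l
      rwa [div_le_iff₀ (by positivity)] at h3)
  refine le_trans (sum_le_sum fun v _ => ?_) h2
  by_cases hg : ∀ m : ℕ, 1 ≤ m → m ≤ N → c + κ * v ≤ m →
        (m : ℝ) ≤ ((c + κ * v : ℕ) : ℝ) + Real.log N ^ W → ∀ l, Good ε K N (A l) m
  · rw [if_pos hg]
    split_ifs <;> first | exact hp0 v | exact le_rfl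
  · rw [if_neg hg, if_pos]
    intro h3
    apply hg
    intro m hm1 hm2 hm3 hm4 l
    obtain ⟨u, hu⟩ : ∃ u, m = c + κ * v + u := ⟨m - (c + κ * v), by omega⟩
    have h4 := h3 u (by
      rw [hu] at hm4
      push_cast at hm4
      linarith) (by omega) (by omega) l
    rw [← hu] at h4
    intro z hz1 hz2
    obtain ⟨h5, h6⟩ := h4 z hz1 hz2
    refine ⟨h5, le_trans h6 (le_of_eq ?_)⟩
    unfold Pool.Agent.W301.SS.GG
    rfl

end Pool.Agent.Results.MP_293bbf_nt.WordTranslates
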